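import Pool.Agent.Y107.SK.StepB

/-!
# Consequences of a lower bound for the Chow coniveau
-/

set_option autoImplicit false
set_option linter.unusedSectionVars false

open CategoryTheory AlgebraicGeometry

universe u v w

namespace Pool.Agent.Y107.SK

open Pool.Agent.H914 Pool.Agent.H914.VarClass Pool.Agent.H914.VarClass.Obj Pool.Agent.W492.BB
  Pool.Agent.W550.Corr Pool.Agent.TH133 Pool.Agent.W484.CH

variable {k : Type u} [Field k] {𝒱 : VarClass k}

section chow

variable {C : TheoryData.{u, v, 0} 𝒱 ℚ} [hC : IsChowProj C] {X Y Z W : 𝒱.Obj} {V : Pol C}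

include hC

lemma act_memZ {a i c : ℤ} {Γ : C.A (X.prod Y)} (hΓ : Γ ∈ C.gr (X.prod Y) a) {x : C.A X}
    (hx : x ∈ C.gr X i) (hc : c = i + a - X.dim) : C.act Γ x ∈ C.gr Y c := by
  have h1 : Γ ∈ C.gr (X.prod Y) (X.dim + (a - X.dim)) := by rwa [add_sub_cancel]
  have h2 := act_mem' C h1 hx
  rwa [show i + (a - (X.dim : ℤ)) = c by rw [hc]; ring] at h2

lemma eq_zero_of_neg {i : ℤ} (hi : i < 0) {x : C.A X} (hx : x ∈ C.gr X i) : x = 0 := by
  rw [C.gr_neg X i hi] at hx
  exact (Submodule.mem_bot _).1 hx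

lemma hasConiveau_zero (P : Pol C) : HasConiveau P 0 := by
  refine Submodule.subset_span ⟨P.X, 0, dg C P.X, prim P, le_rfl, ?_, ?_, (dg_comp C _).symm⟩
  · have := dg_mem C P.X
    rwa [show (P.X.dim : ℤ) = P.X.dim + ((0 : ℕ) : ℤ) by push_cast; ring] at this
  · have := prim_mem P
    rwa [show (P.X.dim : ℤ) = P.X.dim - ((0 : ℕ) : ℤ) by push_cast; ring] at this

/-- Cycles of dimension less than the coniveau. -/
theorem low_dim {c : ℕ} (h : HasConiveau V c) (i : ℕ) (hi : V.X.dim < i + c) (x : C.A V.X)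
    (hx : C.Deg i x) : ∃ r : ℚ, x = r • V.h ^ i := by
  have h1 : ∀ t ∈ twisted C c V.X V.X, C.act t x = 0 := by
    intro t ht
    unfold twisted at ht
    induction ht using Submodule.span_induction with
    | zero => exact C.act_zero x
    | add s t _ _ hs ht => rw [C.act_add, hs, ht, add_zero]
    | smul r t _ ht => rw [act_smul_left, ht, smul_zero]
    | mem t ht =>
      obtain ⟨Z, m, α, β, hm, hα, hβ, rfl⟩ := ht
      have h2 : C.act α x ∈ C.gr Z ((i : ℤ) + (Z.dim + m) - V.X.dim) := act_memZ hα hx rfl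
      have h3 : C.act α x = 0 := gr_top' h2 (by omega)
      rw [C.act_comp, h3, C.act_map_zero]
  obtain ⟨r, hr⟩ := act_triv_span V hx
  refine ⟨r, ?_⟩
  rw [← hr]
  have h2 := h1 _ h
  rw [prim, C.act_sub, act_dg] at h2
  exact sub_eq_zero.1 h2

end chow

section weil

variable {C : TheoryData.{u, v, 0} 𝒱 ℚ} [hC : IsChowProj C] {K : Type w} [Field K]
  {H : WeilTheoryData.{u, v, w} C K} [hH : IsWeilProj H] {X Y Z W : 𝒱.Obj} {V : Pol C}

include hC hH

lemma act_cl_memZ {a : ℤ} {i c : ℤ} {Γ : C.A (X.prod Y)} (hΓ : Γ ∈ C.gr (X.prod Y) a)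
    {x : H.A X} (hx : x ∈ H.gr X i) (hc : c = i + 2 * (a - X.dim)) :
    H.act (H.cl Γ) x ∈ H.gr Y c := by
  have h1 : Γ ∈ C.gr (X.prod Y) (X.dim + (a - X.dim)) := by rwa [add_sub_cancel]
  have h2 := actH_mem H h1 hx
  rwa [← hc] at h2

lemma eq_zero_of_cl {x : C.A X} (hx : C.Deg 0 x) (h : H.cl x = 0) : x = 0 := by
  obtain ⟨q, rfl⟩ := hC.gr_zero X x hx
  by_cases hq : q = 0
  · rw [hq, zero_smul]
  exfalso
  have h1 : (1 : C.A X) = algebraMap ℚ (C.A X) q⁻¹ * (q • (1 : C.A X)) := by
    rw [← Algebra.smul_def, smul_smul, inv_mul_cancel₀ hq, one_smul]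
  have h2 : (1 : H.A X) = 0 := by
    rw [← map_one H.cl, h1, map_mul, h, mul_zero]
  exact hH.one_ne_zero X h2

/-- Cycles of codimension at most the coniveau plus one. -/
theorem low_codim {c : ℕ} (h : HasConiveau V c)
    (hLef : ∀ m : ℤ, m ≠ V.X.dim → Kills H (prim V) m)
    (hPic : ∀ (Z Z' : 𝒱.Obj) (Γ : C.A (Z.prod Z')), C.Deg Z.dim Γ → Kills H Γ 1 →
      ∀ y : C.A Z, C.Deg 1 y → H.cl y = 0 → C.act Γ y = 0)
    (i : ℕ) (hi : i ≤ c + 1) (hn : 2 * i < V.X.dim) (x : C.A V.X) (hx : C.Deg i x) :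
    ∃ r : ℚ, x = r • V.h ^ i := by
  let y := C.act (prim V) x
  have hy : y ∈ C.gr V.X i := act_memZ (prim_mem V) hx (by ring)
  have hey : C.act (prim V) y = y := by
    change C.act (prim V) (C.act (prim V) x) = _
    rw [← C.act_comp, prim_prim]
  have hcl : H.cl y = 0 := by
    have h1 : H.cl y = H.act (H.cl (prim V)) (H.cl x) := cl_act H _ _
    rw [h1]
    exact hLef (2 * i) (by omega) _ (H.cl_mem hx)
  have clact : ∀ {Z Z' : 𝒱.Obj} (Γ : C.A (Z.prod Z')) (z : C.A Z), H.cl z = 0 →
      H.cl (C.act Γ z) = 0 := by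
    intro Z Z' Γ z hz
    rw [cl_act H, hz, H.act_map_zero]
  -- the key vanishing
  have key : ∀ (Z : 𝒱.Obj) (m : ℕ) (β : C.A (Z.prod V.X)), c ≤ m →
      C.Deg ((V.X.dim : ℤ) - m) β → C.act (tp C β) y = 0 := by
    intro Z m β hm hβ
    have gβ : tp C β ∈ C.gr (V.X.prod Z) ((V.X.dim : ℤ) - m) := tp_mem C hβ
    have h1 : ∀ t ∈ twisted C c V.X V.X,
        C.act (tp C β) (C.act (prim V) (C.act (tp C t) y)) = 0 := by
      intro t ht
      unfold twisted at ht
      induction ht using Submodule.span_induction with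
      | zero => rw [tp_zero C, C.act_zero, C.act_map_zero, C.act_map_zero]
      | add s t _ _ hs ht =>
        rw [tp_add C, C.act_add, act_map_add C, act_map_add C, hs, ht, add_zero]
      | smul r t _ ht => rw [tp_smul C, act_smul_left, act_map_smul C, act_map_smul C, ht,
          smul_zero]
      | mem t ht =>
        obtain ⟨Z', m', α', β', hm', hα', hβ', rfl⟩ := ht
        have gβ' : tp C β' ∈ C.gr (V.X.prod Z') ((V.X.dim : ℤ) - m') := tp_mem C hβ'
        have gα' : tp C α' ∈ C.gr (Z'.prod V.X) ((Z'.dim : ℤ) + m') := tp_mem C hα'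
        rw [tp_comp C (ch_comm C), C.act_comp]
        have gz : C.act (tp C β') y ∈ C.gr Z' ((i : ℤ) - m') := act_memZ gβ' hy (by ring)
        have cz : H.cl (C.act (tp C β') y) = 0 := clact _ _ hcl
        rcases lt_trichotomy i m' with h2 | h2 | h2
        · rw [eq_zero_of_neg (by omega) gz, C.act_map_zero, C.act_map_zero, C.act_map_zero]
        · have gz' : C.Deg 0 (C.act (tp C β') y) := by
            rwa [show (i : ℤ) - m' = 0 by omega] at gz
          rw [eq_zero_of_cl gz' cz, C.act_map_zero, C.act_map_zero, C.act_map_zero]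
        · have h3 : (i : ℤ) - m' = 1 := by omega
          rw [h3] at gz
          -- the target
          have gw : C.act (tp C β) (C.act (prim V) (C.act (tp C α') (C.act (tp C β') y))) ∈
              C.gr Z ((i : ℤ) - m) := by
            have h4 : C.act (tp C α') (C.act (tp C β') y) ∈ C.gr V.X i :=
              act_memZ gα' gz (by omega)
            exact act_memZ gβ (act_memZ (prim_mem V) h4 (c := (i : ℤ)) (by ring)) (by ring)
          have cw : H.cl (C.act (tp C β) (C.act (prim V) (C.act (tp C α')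
              (C.act (tp C β') y)))) = 0 := clact _ _ (clact _ _ (clact _ _ cz))
          rcases lt_trichotomy i m with h5 | h5 | h5
          · exact eq_zero_of_neg (by omega) gw
          · rw [show (i : ℤ) - m = 0 by omega] at gw
            exact eq_zero_of_cl gw cw
          · rw [← C.act_comp, ← C.act_comp]
            refine hPic Z' Z _ ?_ ?_ _ gz cz
            · exact comp_memZ gα' (comp_memZ (prim_mem V) gβ (c := (V.X.dim : ℤ) - m)
                (by ring)) (by omega)
            · intro a ha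
              rw [actH_comp H, actH_comp H]
              have h6 : H.act (H.cl (tp C α')) a ∈ H.gr V.X (2 * i - 1) :=
                act_cl_memZ gα' ha (by omega)
              rw [hLef (2 * i - 1) (by omega) _ h6, H.act_map_zero]
    have h2 := h1 _ h
    rwa [tp_prim, hey, hey] at h2
  have h1 : ∀ t ∈ twisted C c V.X V.X, C.act (tp C t) y = 0 := by
    intro t ht
    unfold twisted at ht
    induction ht using Submodule.span_induction with
    | zero => rw [tp_zero C, C.act_zero]
    | add s t _ _ hs ht => rw [tp_add C, C.act_add, hs, ht, add_zero]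
    | smul r t _ ht => rw [tp_smul C, act_smul_left, ht, smul_zero]
    | mem t ht =>
      obtain ⟨Z, m, α, β, hm, hα, hβ, rfl⟩ := ht
      rw [tp_comp C (ch_comm C), C.act_comp, key Z m β hm hβ, C.act_map_zero]
  have h2 := h1 _ h
  rw [tp_prim, hey] at h2
  obtain ⟨r, hr⟩ := act_triv_span V hx
  refine ⟨r, ?_⟩
  rw [← hr]
  change C.act (prim V) x = 0 at h2
  rw [prim, C.act_sub, act_dg] at h2
  exact sub_eq_zero.1 h2

end weil

end Pool.Agent.Y107.SK
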