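import Pool.Agent.Y107.SK.Conc

/-!
# Towers of hypersurfaces given by sums of forms
-/

set_option autoImplicit false
set_option linter.unusedSectionVars false

open CategoryTheory AlgebraicGeometry

universe u v w

namespace Pool.Agent.Y107.SK

open Pool.Agent.H914 Pool.Agent.H914.VarClass Pool.Agent.H914.VarClass.Obj Pool.Agent.W492.BB
  Pool.Agent.W550.Corr Pool.Agent.TH133 Pool.Agent.W484.CH

variable {k : Type u} [Field k] {𝒱 : VarClass k}

section chow

variable {C : TheoryData.{u, v, 0} 𝒱 ℚ} [hC : IsChowProj C] {α : ℕ → ℕ}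
  {Y X y x x' : ℕ → Pol C}

include hC

lemma HasConiveau.mono {P : Pol C} {c c' : ℕ} (h : HasConiveau P c) (hc : c' ≤ c) :
    HasConiveau P c' := twisted_mono hc h

/-- The coniveau of the hypersurfaces of a tower. -/
theorem tower (h : IsTower α Y X y x x') (r : ℕ) :
    HasConiveau (X r) (∑ s ∈ Finset.range (r + 1), α s) ∧
      HasConiveau (Y r) (∑ s ∈ Finset.range (r + 1), α s - 1) := by
  induction r with
  | zero =>
    rw [Finset.sum_range_one, h.Y_zero, h.X_zero]
    exact ⟨h.con_x 0, h.con_y 0⟩
  | succ r ih =>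
    rw [Finset.sum_range_succ]
    refine ⟨?_, ?_⟩
    · exact coniveau_step (h.skX r) ih.1 (h.con_x' (r + 1)) ih.2 (h.con_x (r + 1)) (by omega)
        (by omega)
    · exact coniveau_step (h.skY r) ih.1 (h.con_x (r + 1)) ih.2 (h.con_y (r + 1)) (by omega)
        (by omega)

/-- The case where the coniveau of one of the `y s` is at least `α s`. -/
theorem tower' (h : IsTower α Y X y x x') (r s : ℕ) (hs : s ≤ r) (hy : HasConiveau (y s) (α s)) :
    HasConiveau (Y r) (∑ s ∈ Finset.range (r + 1), α s) := by
  induction r with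
  | zero =>
    rw [Finset.sum_range_one, h.Y_zero]
    rwa [show s = 0 by omega] at hy
  | succ r ih =>
    rw [Finset.sum_range_succ]
    have h1 := tower h r
    rcases Nat.lt_or_ge r s with h2 | h2
    · have h3 : s = r + 1 := by omega
      subst h3
      exact coniveau_step (h.skY r) h1.1 (h.con_x (r + 1)) h1.2 hy (by omega) (by omega)
    · exact coniveau_step (h.skY r) h1.1 (h.con_x (r + 1)) (ih h2) (h.con_y (r + 1)) (by omega)
        (by omega)

theorem blochUpTo {V : Pol C} {c : ℕ} (h : HasConiveau V c) : BlochUpTo c V := by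
  intro i hi hn x hx
  exact low_dim h (V.X.dim - i) (by omega) x hx

end chow

section weil

variable {C : TheoryData.{u, v, 0} 𝒱 ℚ} [hC : IsChowProj C] {K : Type w} [Field K]
  {H : WeilTheoryData.{u, v, w} C K} [hH : IsWeilProj H]

include hC hH

theorem hartshorneUpTo {V : Pol C} {c : ℕ} (h : HasConiveau V c) (hL : IsLefschetz H V)
    (hP : PicardProperty H) : HartshorneUpTo (c + 1) V :=
  fun i hi hn x hx => low_codim h hL hP i hi hn x hx

end weil

end Pool.Agent.Y107.SK
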