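import Pool.Agent.Y107.SK.Defs
import Pool.Agent.Y107.SDMul
import Pool.Agent.W484.CH.Corr

/-!
# The calculus of graphs and external products
-/

set_option autoImplicit false
set_option linter.unusedSectionVars false

open CategoryTheory AlgebraicGeometry

universe u v w

namespace Pool.Agent.Y107.SK

open Pool.Agent.H914 Pool.Agent.H914.VarClass Pool.Agent.H914.VarClass.Obj Pool.Agent.W492.BB
  Pool.Agent.W550.Corr Pool.Agent.TH133 Pool.Agent.W484.CH

variable {k : Type u} [Field k] {𝒱 : VarClass k}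

section chow

variable {C : TheoryData.{u, v, 0} 𝒱 ℚ} [hC : IsChowProj C] {X Y Z W X' Y' Z' W' : 𝒱.Obj}

include hC

lemma comp_graph (Γ : C.A (X.prod Y)) (f : Y ⟶ Z) :
    C.comp Γ (C.graph f) = C.push (prodMap (𝟙 X) f) Γ := by
  rw [comp_eq_extR, extR_graph]

lemma graph_graph (f : X ⟶ Y) (g : Y ⟶ Z) : C.comp (C.graph f) (C.graph g) = C.graph (f ≫ g) := by
  have e1 : Obj.lift (𝟙 X) f ≫ prodMap (𝟙 X) g = Obj.lift (𝟙 X) (f ≫ g) := by
    apply prod_ext <;> simp
  rw [comp_graph, TheoryData.graph, ← C.push_comp, e1]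
  rfl

lemma cograph_cograph (f : X ⟶ Y) (g : Y ⟶ Z) :
    C.comp (C.cograph g) (C.cograph f) = C.cograph (f ≫ g) := cograph_comp C f g

lemma tp_graph (f : X ⟶ Y) : tp C (C.graph f) = C.cograph f := by
  have e1 : Obj.lift (𝟙 X) f ≫ sw X Y = Obj.lift f (𝟙 X) := by
    apply prod_ext <;> simp [sw, comp_lift]
  rw [tp_eq_push, TheoryData.graph, ← C.push_comp, e1]
  rfl

lemma tp_cograph (f : X ⟶ Y) : tp C (C.cograph f) = C.graph f := by
  rw [← tp_graph, tp_tp]

lemma graph_iso (φ : X ≅ Y) : C.graph φ.hom = C.cograph φ.inv := by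
  have e1 : Obj.lift (𝟙 X) φ.hom = φ.hom ≫ Obj.lift φ.inv (𝟙 Y) := by
    apply prod_ext <;> simp
  have h1 : C.push φ.hom 1 = 1 := hC.push_one φ.hom φ.inv φ.hom_inv_id φ.inv_hom_id
  rw [TheoryData.graph, e1, C.push_comp, h1]
  rfl

lemma tens_graph (f : X ⟶ Y) (g : Z ⟶ W) :
    tens C (C.graph f) (C.graph g) = C.graph (prodMap f g) := by
  have e1 : prodMap (Obj.lift (𝟙 X) f) (Obj.lift (𝟙 Z) g) ≫ mid X Y Z W =
      Obj.lift (𝟙 (X.prod Z)) (prodMap f g) := by
    apply prod_ext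
    · apply prod_ext <;> simp [mid, prodMap, comp_lift]
    · apply prod_ext <;> simp [mid, prodMap, comp_lift]
  have h1 : C.ext (1 : C.A X) (1 : C.A Z) = 1 := by
    rw [TheoryData.ext, map_one, map_one, one_mul]
  rw [tens_eq C, pull_iso C (mid X Z Y W) (mid X Y Z W) (mid_mid _ _ _ _) (mid_mid _ _ _ _),
    TheoryData.graph, TheoryData.graph, ← push_ext C, ← C.push_comp, e1, h1]
  rfl

lemma tens_cograph (f : X ⟶ Y) (g : Z ⟶ W) :
    tens C (C.cograph f) (C.cograph g) = C.cograph (prodMap f g) := by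
  rw [← tp_graph, ← tp_graph, ← tp_tens, tens_graph, tp_graph]

lemma tens_comp4 (Γ : C.A (X.prod Y)) (Δ : C.A (Z.prod W)) (Γ' : C.A (Y.prod X'))
    (Δ' : C.A (W.prod Z')) :
    C.comp (tens C Γ Δ) (tens C Γ' Δ') = tens C (C.comp Γ Γ') (C.comp Δ Δ') :=
  tens_comp C (ch_comm C) Γ Δ Γ' Δ'

lemma comp_ext (u : C.A X) (v : C.A Y) (Γ : C.A (Y.prod Z)) :
    C.comp (C.ext u v) Γ = C.ext u (C.act Γ v) := by
  rw [comp_eq_extR]
  exact C.extR_ext Γ (fun c => ch_comm C _ _) u v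

lemma tp_ext' (u : C.A X) (v : C.A Y) : tp C (C.ext u v) = C.ext v u := tp_ext u v

lemma tens_ext (u : C.A X) (v : C.A Y) (u' : C.A Z) (v' : C.A W) :
    tens C (C.ext u v) (C.ext u' v') = C.ext (C.ext u u') (C.ext v v') := by
  simp only [tens, TheoryData.ext, map_mul, ← C.pull_comp, prodMap_fst, prodMap_snd]
  generalize C.pull (fst (X.prod Z) (Y.prod W) ≫ fst X Z) u = a
  generalize C.pull (snd (X.prod Z) (Y.prod W) ≫ fst Y W) v = b
  generalize C.pull (fst (X.prod Z) (Y.prod W) ≫ snd X Z) u' = c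
  generalize C.pull (snd (X.prod Z) (Y.prod W) ≫ snd Y W) v' = d
  rw [mul_assoc, ← mul_assoc b c d, ch_comm C b c, mul_assoc, ← mul_assoc, ← mul_assoc]

lemma cograph_push_one (q : X ⟶ Y) (d : ℚ) (hd : C.push q 1 = d • (1 : C.A Y)) :
    C.comp (C.cograph q) (C.graph q) = d • dg C Y := by
  have h1 : C.comp (C.cograph q) (C.graph q) = C.mulCorr (C.push q 1) := cograph_graph q
  rw [h1, hd, TheoryData.mulCorr, map_smul]
  rfl

end chow

end Pool.Agent.Y107.SK
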