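import Pool.Agent.TH133.Ext

/-!
# Polarized varieties, Chow coniveau and diagrams of Shioda and Katsura: definitions
-/

set_option autoImplicit false

open CategoryTheory AlgebraicGeometry

universe u v w

namespace Pool.Agent.Y107.SK

open Pool.Agent.H914 Pool.Agent.H914.VarClass Pool.Agent.H914.VarClass.Obj Pool.Agent.W492.BB
  Pool.Agent.W550.Corr Pool.Agent.TH133

variable {k : Type u} [Field k] {𝒱 : VarClass k} {C : TheoryData.{u, v, 0} 𝒱 ℚ}

/-- A polarized variety: a variety `X` with a divisor class `h` (the hyperplane class) such that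
`h ^ dim X` has the degree `D ≠ 0`. -/
structure Pol (C : TheoryData.{u, v, 0} 𝒱 ℚ) where
  /-- the variety -/
  X : 𝒱.Obj
  /-- the class of the hyperplane sections -/
  h : C.A X
  /-- the degree -/
  D : ℚ
  h_mem : C.Deg 1 h
  D_ne : D ≠ 0
  degree : HasDegree C (h ^ X.dim) D

/-- The trivial part `(1 / D) ∑ h^j × h^(n-j)` of the diagonal, `n = dim X`. -/
noncomputable def triv (P : Pol C) : C.A (P.X.prod P.X) :=
  P.D⁻¹ • ∑ j ∈ Finset.range (P.X.dim + 1), C.ext (P.h ^ j) (P.h ^ (P.X.dim - j))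

/-- The primitive part `Δ - (1 / D) ∑ h^j × h^(n-j)` of the diagonal. -/
noncomputable def prim (P : Pol C) : C.A (P.X.prod P.X) := dg C P.X - triv P

/-- The span of the correspondences `X → Z → Y` which factor through the twist by `m ≥ c` of a
variety `Z`, that is, which map `CH_i(X)` to `CH_(i-m)(Z)` and then to `CH_i(Y)`. -/
noncomputable def twisted (C : TheoryData.{u, v, 0} 𝒱 ℚ) (c : ℕ) (X Y : 𝒱.Obj) : Submodule ℚ (C.A (X.prod Y)) :=
  Submodule.span ℚ {Γ | ∃ (Z : 𝒱.Obj) (m : ℕ) (α : C.A (X.prod Z)) (β : C.A (Z.prod Y)), c ≤ m ∧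
    C.Deg ((Z.dim : ℤ) + m) α ∧ C.Deg ((Y.dim : ℤ) - m) β ∧ Γ = C.comp α β}

/-- The primitive part of the Chow motive of the polarized variety `P` is the direct factor of a sum
of motives of varieties twisted by `m ≥ c`. -/
noncomputable def HasConiveau (P : Pol C) (c : ℕ) : Prop := prim P ∈ twisted C c P.X P.X

/-- The diagram of Shioda and Katsura attached to two forms `f(x)` and `g(y)` of degree `d`, for the
hypersurfaces `V = {f(x) + g(y) = 0}`, `X₁ = {f(x) = z^d}`, `X₂ = {-g(y) = w^d}`, `Y₁ = {f(x) = 0}` and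
`Y₂ = {g(y) = 0}`. -/
structure Diagram (C : TheoryData.{u, v, 0} 𝒱 ℚ) (V X₁ X₂ Y₁ Y₂ : 𝒱.Obj) where
  /-- the blow-up of `X₁ × X₂` along `Y₁ × Y₂` -/
  W : 𝒱.Obj
  /-- the exceptional divisor -/
  E : 𝒱.Obj
  /-- the map `((x : z), (y : w)) ↦ (w x : z y)` -/
  q : W ⟶ V
  /-- the blow-down -/
  π : W ⟶ X₁.prod X₂
  /-- the inclusion of the exceptional divisor -/
  j : E ⟶ W
  /-- the projection of the exceptional divisor to the centre -/
  σ : E ⟶ Y₁.prod Y₂
  /-- the inclusion of `Y₁ = {z = 0}` in `X₁` -/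
  s : Y₁ ⟶ X₁
  /-- the inclusion of `Y₂ = {w = 0}` in `X₂` -/
  t : Y₂ ⟶ X₂
  /-- the inclusion of `Y₁ = {y = 0}` in `V` -/
  i₁ : Y₁ ⟶ V
  /-- the inclusion of `Y₂ = {x = 0}` in `V` -/
  i₂ : Y₂ ⟶ V
  /-- the strict transform of `Y₁ × X₂` -/
  j₁ : Y₁.prod X₂ ⟶ W
  /-- the strict transform of `X₁ × Y₂` -/
  j₂ : X₁.prod Y₂ ⟶ W
  /-- the group of the `d`-th roots of unity -/
  G : Type
  [fin : Fintype G]
  /-- the action on `X₁` (on the coordinate `z`) -/
  γ₁ : G → (X₁ ≅ X₁)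
  /-- the action on `X₂` (on the coordinate `w`) -/
  γ₂ : G → (X₂ ≅ X₂)
  /-- the action on `W` -/
  γ : G → (W ≅ W)

attribute [instance] Diagram.fin

variable {V X₁ X₂ Y₁ Y₂ : Pol C}

/-- The dimensions of the varieties of the diagram. -/
structure Diagram.HasDims (D : Diagram C V.X X₁.X X₂.X Y₁.X Y₂.X) : Prop where
  dim_W : D.W.dim = X₁.X.dim + X₂.X.dim
  dim_E : D.E.dim + 1 = X₁.X.dim + X₂.X.dim
  dim_V : V.X.dim = X₁.X.dim + X₂.X.dim
  dim_X₁ : X₁.X.dim = Y₁.X.dim + 1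
  dim_X₂ : X₂.X.dim = Y₂.X.dim + 1

/-- The formulas `π^* (s × 1)_* = j₁_* + j_* σ^* (1 × t)^*` and `π^* (1 × t)_* = j₂_* + j_* σ^* (s × 1)^*`
for the divisors `Y₁ × X₂` and `X₁ × Y₂` through the centre. -/
structure Diagram.HasStrict (D : Diagram C V.X X₁.X X₂.X Y₁.X Y₂.X) : Prop where
  strict₁ : C.comp (C.graph (prodMap D.s (𝟙 X₂.X))) (C.cograph D.π) = C.graph D.j₁ +
    C.comp (C.cograph (prodMap (𝟙 Y₁.X) D.t)) (C.comp (C.cograph D.σ) (C.graph D.j))
  strict₂ : C.comp (C.graph (prodMap (𝟙 X₁.X) D.t)) (C.cograph D.π) = C.graph D.j₂ +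
    C.comp (C.cograph (prodMap D.s (𝟙 Y₂.X))) (C.comp (C.cograph D.σ) (C.graph D.j))

/-- `W` is the blow-up of `X₁ × X₂` along `Y₁ × Y₂` with exceptional divisor `E`: the formula for the
diagonal of a blow-up in codimension two, and the formulas for the two divisors through the centre. -/
structure Diagram.IsBlowUp (D : Diagram C V.X X₁.X X₂.X Y₁.X Y₂.X) : Prop
    extends D.HasDims, D.HasStrict where
  j_π : D.j ≫ D.π = D.σ ≫ prodMap D.s D.t
  diag : dg C D.W = C.comp (C.graph D.π) (C.cograph D.π) -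
    C.comp (C.comp (C.cograph D.j) (C.graph D.σ)) (C.comp (C.cograph D.σ) (C.graph D.j))

/-- The hyperplane classes: `Y₁`, `Y₂` are hyperplane sections of `X₁`, `X₂` and linear sections
of `V`. -/
structure Diagram.HasSections (D : Diagram C V.X X₁.X X₂.X Y₁.X Y₂.X) : Prop where
  s_one : C.down D.s 1 = X₁.h
  t_one : C.down D.t 1 = X₂.h
  s_h : C.up D.s X₁.h = Y₁.h
  t_h : C.up D.t X₂.h = Y₂.h
  i₁_h : C.up D.i₁ V.h = Y₁.h
  i₂_h : C.up D.i₂ V.h = Y₂.h
  i₁_one : C.down D.i₁ 1 = V.h ^ (X₂.X.dim + 1)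
  i₂_one : C.down D.i₂ 1 = V.h ^ (X₁.X.dim + 1)

/-- The strict transforms of `Y₁ × X₂` and `X₁ × Y₂` are contracted by `q` to `Y₁` and `Y₂`. -/
structure Diagram.HasContractions (D : Diagram C V.X X₁.X X₂.X Y₁.X Y₂.X) : Prop where
  j₁_q : D.j₁ ≫ D.q = fst Y₁.X X₂.X ≫ D.i₁
  j₂_q : D.j₂ ≫ D.q = snd X₁.X Y₂.X ≫ D.i₂

/-- The maps to `V` and the hyperplane classes: `Y₁`, `Y₂` are hyperplane sections of `X₁`, `X₂` and
linear sections of `V`, the strict transforms of `Y₁ × X₂` and `X₁ × Y₂` are contracted to `Y₁` and `Y₂`,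
`q` is generically finite, `q^* h = h₁ + h₂ - [E]`, and `h · CH^i(V)` is spanned by `h^(i+1)`. -/
structure Diagram.IsPolarized (D : Diagram C V.X X₁.X X₂.X Y₁.X Y₂.X) : Prop
    extends D.HasSections, D.HasContractions where
  q_one : ∃ d : ℚ, d ≠ 0 ∧ C.down D.q 1 = d • (1 : C.A V.X)
  q_h : C.up D.q V.h = C.up D.π (C.ext X₁.h 1) + C.up D.π (C.ext 1 X₂.h) - C.down D.j 1
  mul_h : ∀ (i : ℕ) (x : C.A V.X), C.Deg i x → ∃ r : ℚ, V.h * x = r • V.h ^ (i + 1)

/-- The group action: `π` is equivariant, `q` is invariant, and the average over the group is the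
trivial part of the diagonal for `X₁` and `X₂` (their quotients are projective spaces). -/
structure Diagram.IsEquivariant (D : Diagram C V.X X₁.X X₂.X Y₁.X Y₂.X) : Prop where
  nonempty : Nonempty D.G
  γ_π : ∀ g, (D.γ g).hom ≫ D.π = D.π ≫ prodMap (D.γ₁ g).hom (D.γ₂ g).hom
  γ_q : ∀ g, (D.γ g).hom ≫ D.q = D.q
  γ₁_h : ∀ g, C.up (D.γ₁ g).hom X₁.h = X₁.h
  γ₂_h : ∀ g, C.up (D.γ₂ g).hom X₂.h = X₂.h
  avg₁ : ∑ g, C.graph (D.γ₁ g).hom = (Fintype.card D.G : ℚ) • triv X₁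
  avg₂ : ∑ g, C.graph (D.γ₂ g).hom = (Fintype.card D.G : ℚ) • triv X₂

/-- There is a diagram of Shioda and Katsura for the five polarized varieties. -/
def ShiodaKatsura (V X₁ X₂ Y₁ Y₂ : Pol C) : Prop :=
  ∃ D : Diagram C V.X X₁.X X₂.X Y₁.X Y₂.X, D.IsBlowUp ∧ D.IsPolarized ∧ D.IsEquivariant

/-- The hypersurfaces attached to a sequence of forms `f_0, f_1, ...` of degree `d` in disjoint sets
of variables: `y r = {f_r = 0}`, `x r = {f_r = z^d}`, `x' r = {f_r = z^d + w^d}`, and, for the sums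
`F_r = f_0 + ... + f_r`, `Y r = {F_r = 0}` and `X r = {F_r = z^d}`. They are related by the
diagrams of Shioda and Katsura for `F_r` and `f_(r+1)`, and for `F_r` and `f_(r+1) - z^d`. The
coniveaus of `x r`, `x' r` and `y r` are at least `α r`, `α r` and `α r - 1`; if `f_r` has at least `d`
variables one can take `α r = 1`, as `x r` and `x' r` are Fano. -/
structure IsTower (α : ℕ → ℕ) (Y X y x x' : ℕ → Pol C) : Prop where
  Y_zero : Y 0 = y 0
  X_zero : X 0 = x 0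
  skY : ∀ r, ShiodaKatsura (Y (r + 1)) (X r) (x (r + 1)) (Y r) (y (r + 1))
  skX : ∀ r, ShiodaKatsura (X (r + 1)) (X r) (x' (r + 1)) (Y r) (x (r + 1))
  con_x : ∀ r, HasConiveau (x r) (α r)
  con_x' : ∀ r, HasConiveau (x' r) (α r)
  con_y : ∀ r, HasConiveau (y r) (α r - 1)

/-- The cycles of codimension `i ≤ c`, `i < n / 2`, on `V` are multiples of `h^i`, `n = dim V`. -/
def HartshorneUpTo (c : ℕ) (V : Pol C) : Prop :=
  ∀ i : ℕ, i ≤ c → 2 * i < V.X.dim → ∀ x : C.A V.X, C.Deg i x → ∃ q : ℚ, x = q • V.h ^ i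

/-- The cycles of dimension `i < c` on `V` are multiples of `h^(n-i)`, `n = dim V`. -/
def BlochUpTo (c : ℕ) (V : Pol C) : Prop :=
  ∀ i : ℕ, i < c → i ≤ V.X.dim → ∀ x : C.A V.X, C.Deg ((V.X.dim - i : ℕ) : ℤ) x →
    ∃ q : ℚ, x = q • V.h ^ (V.X.dim - i)

variable {K : Type w} [Field K] (H : WeilTheoryData.{u, v, w} C K)

/-- The primitive part of `V` has cohomology in the middle degree only (Lefschetz). -/
def IsLefschetz (V : Pol C) : Prop := ∀ m : ℤ, m ≠ V.X.dim → Kills H (prim V) m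

/-- The theory of the Picard variety: a correspondence `Γ` of degree zero from `Z` to `Z'` which acts as
zero on `H^1` acts as zero on the homologically trivial divisor classes, with rational
coefficients. -/
def PicardProperty : Prop :=
  ∀ (Z Z' : 𝒱.Obj) (Γ : C.A (Z.prod Z')), C.Deg Z.dim Γ → Kills H Γ 1 →
    ∀ y : C.A Z, C.Deg 1 y → H.cl y = 0 → C.act Γ y = 0

end Pool.Agent.Y107.SK
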