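import Pool.Agent.Y107.SK.Calc

/-!
# The trivial and the primitive part of the diagonal
-/

set_option autoImplicit false
set_option linter.unusedSectionVars false

open CategoryTheory AlgebraicGeometry

universe u v w

namespace Pool.Agent.Y107.SK

open Pool.Agent.H914 Pool.Agent.H914.VarClass Pool.Agent.H914.VarClass.Obj Pool.Agent.W492.BB
  Pool.Agent.W550.Corr Pool.Agent.TH133 Pool.Agent.W484.CH

variable {k : Type u} [Field k] {𝒱 : VarClass k}

section chow

variable {C : TheoryData.{u, v, 0} 𝒱 ℚ} [hC : IsChowProj C] {X Y Z W : 𝒱.Obj}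

include hC

lemma pow_mem' {h : C.A X} (hh : C.Deg 1 h) (j : ℕ) : h ^ j ∈ C.gr X j := by
  induction j with
  | zero =>
    rw [pow_zero]
    exact_mod_cast C.one_mem X
  | succ j ih =>
    rw [pow_succ]
    have := C.mul_mem ih hh
    rwa [show ((j : ℤ) + 1) = ((j + 1 : ℕ) : ℤ) by push_cast; ring] at this

lemma gr_top' {i : ℤ} {x : C.A X} (hx : x ∈ C.gr X i) (hi : (X.dim : ℤ) < i) : x = 0 :=
  hC.gr_top X i x hx hi

variable (P : Pol C)

lemma Pol.pow_mem (j : ℕ) : P.h ^ j ∈ C.gr P.X j := pow_mem' P.h_mem j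

lemma act_sum_left {ι : Type*} (s : Finset ι) (f : ι → C.A (X.prod Y)) (x : C.A X) :
    C.act (∑ i ∈ s, f i) x = ∑ i ∈ s, C.act (f i) x := act_sum C s f x

lemma act_smul_left (r : ℚ) (Γ : C.A (X.prod Y)) (x : C.A X) :
    C.act (r • Γ) x = r • C.act Γ x := by
  have := LinearMap.map_smul₂ (actB C (X := X) (Y := Y)) r Γ x
  exact this

/-- The trivial part maps everything to the powers of `h`. -/
lemma act_triv_gr {i : ℕ} {x : C.A P.X} (hx : x ∈ C.gr P.X i) {q : ℚ}
    (hq : i ≤ P.X.dim → HasDegree C (P.h ^ (P.X.dim - i) * x) q) :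
    C.act (triv P) x = (P.D⁻¹ * q) • P.h ^ i := by
  rw [triv, act_smul_left, act_sum_left, mul_smul]
  congr 1
  by_cases hi : i ≤ P.X.dim
  · rw [Finset.sum_eq_single (P.X.dim - i)]
    · rw [act_ext' (hq hi), show P.X.dim - (P.X.dim - i) = i by omega]
    · intro j hj hne
      rw [Finset.mem_range] at hj
      exact act_ext_zero_of_lt (C.mul_mem (P.pow_mem j) hx) (by omega)
    · intro h
      exact absurd (Finset.mem_range.2 (by omega)) h
  · have h1 : x = 0 := gr_top' hx (by omega)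
    have h2 : P.h ^ i = 0 := gr_top' (P.pow_mem i) (by omega)
    rw [h1, h2, smul_zero]
    exact Finset.sum_eq_zero fun j _ => C.act_map_zero _

lemma act_triv_span {i : ℕ} {x : C.A P.X} (hx : x ∈ C.gr P.X i) :
    ∃ r : ℚ, C.act (triv P) x = r • P.h ^ i := by
  by_cases hi : i ≤ P.X.dim
  · have h1 : P.h ^ (P.X.dim - i) * x ∈ C.gr P.X P.X.dim := by
      have := C.mul_mem (P.pow_mem (P.X.dim - i)) hx
      rwa [show ((P.X.dim - i : ℕ) : ℤ) + i = P.X.dim by omega] at this
    obtain ⟨q, hq⟩ := exists_hasDegree h1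
    exact ⟨_, act_triv_gr P hx fun _ => hq⟩
  · exact ⟨_, act_triv_gr P (q := 0) hx fun h => absurd h hi⟩

lemma act_triv_pow (j : ℕ) : C.act (triv P) (P.h ^ j) = P.h ^ j := by
  rw [act_triv_gr P (q := P.D) (P.pow_mem j) fun h => by
    rw [← pow_add, Nat.sub_add_cancel h]
    exact P.degree, inv_mul_cancel₀ P.D_ne, one_smul]

lemma act_prim_pow (j : ℕ) : C.act (prim P) (P.h ^ j) = 0 := by
  rw [prim, C.act_sub, act_dg, act_triv_pow, sub_self]

lemma act_prim_span {x : C.A P.X} (hx : x ∈ Submodule.span ℚ (Set.range fun j : ℕ => P.h ^ j)) :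
    C.act (prim P) x = 0 := by
  have h1 : Submodule.span ℚ (Set.range fun j : ℕ => P.h ^ j) ≤
      LinearMap.ker (C.actL (prim P)) := by
    rw [Submodule.span_le]
    rintro _ ⟨j, rfl⟩
    exact act_prim_pow P j
  exact h1 hx

lemma comp_smul (r : ℚ) (Γ : C.A (X.prod Y)) (Δ : C.A (Y.prod Z)) :
    C.comp Γ (r • Δ) = r • C.comp Γ Δ := map_smul (compL C Γ) r Δ

lemma smul_comp (r : ℚ) (Γ : C.A (X.prod Y)) (Δ : C.A (Y.prod Z)) :
    C.comp (r • Γ) Δ = r • C.comp Γ Δ := by
  have := LinearMap.map_smul₂ (compL C (X := X) (Y := Y) (Z := Z)) r Γ Δ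
  exact this

lemma ext_pow_triv (u : C.A X) (j : ℕ) : C.comp (C.ext u (P.h ^ j)) (triv P) =
    C.ext u (P.h ^ j) := by
  rw [comp_ext, act_triv_pow]

lemma triv_triv : C.comp (triv P) (triv P) = triv P := by
  conv_lhs => rw [triv, smul_comp, sum_comp C]
  conv_rhs => rw [triv]
  congr 1
  exact Finset.sum_congr rfl fun j _ => ext_pow_triv P _ _

lemma tp_triv : tp C (triv P) = triv P := by
  rw [triv, tp_smul C, tp_sum C]
  congr 1
  rw [← Finset.sum_range_reflect (fun j => C.ext (P.h ^ j) (P.h ^ (P.X.dim - j)))]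
  refine Finset.sum_congr rfl fun j hj => ?_
  rw [Finset.mem_range] at hj
  rw [tp_ext]
  have h1 : P.X.dim + 1 - 1 - j = P.X.dim - j := by omega
  have h2 : P.X.dim - (P.X.dim - j) = j := by omega
  rw [h1, h2]

lemma tp_prim : tp C (prim P) = prim P := by
  rw [prim, tp_sub C, tp_dg C, tp_triv]

lemma prim_triv : C.comp (prim P) (triv P) = 0 := by
  rw [prim, sub_comp C, dg_comp C, triv_triv, sub_self]

lemma triv_prim : C.comp (triv P) (prim P) = 0 := by
  rw [prim, comp_sub C, comp_dg C, triv_triv, sub_self]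

lemma prim_prim : C.comp (prim P) (prim P) = prim P := by
  have h1 : C.comp (dg C P.X - triv P) (prim P) = prim P := by
    rw [sub_comp C, dg_comp C, triv_prim, sub_zero]
  exact h1

lemma triv_mem : triv P ∈ C.gr (P.X.prod P.X) P.X.dim := by
  refine Submodule.smul_mem _ _ (Submodule.sum_mem _ fun j hj => ?_)
  rw [Finset.mem_range] at hj
  have := ext_mem' (C := C) (P.pow_mem j) (P.pow_mem (P.X.dim - j))
  rwa [show (j : ℤ) + ((P.X.dim - j : ℕ) : ℤ) = P.X.dim by omega] at this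

lemma prim_mem : prim P ∈ C.gr (P.X.prod P.X) P.X.dim :=
  Submodule.sub_mem _ (dg_mem C P.X) (triv_mem P)

lemma dg_eq : dg C P.X = prim P + triv P := by rw [prim, sub_add_cancel]

/-- Automorphisms preserving `h` act trivially on the trivial part. -/
lemma triv_graph (φ : P.X ≅ P.X) (hφ : C.up φ.hom P.h = P.h) :
    C.comp (triv P) (C.graph φ.hom) = triv P := by
  have h1 : C.pull φ.inv P.h = P.h := by
    have h2 : C.pull φ.inv (C.pull φ.hom P.h) = P.h := by
      rw [← C.pull_comp, φ.inv_hom_id, C.pull_id]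
    have h3 : C.pull φ.hom P.h = P.h := hφ
    rwa [h3] at h2
  have h2 : ∀ j, C.act (C.graph φ.hom) (P.h ^ j) = P.h ^ j := by
    intro j
    rw [C.act_graph, ← pull_iso C φ.inv φ.hom φ.inv_hom_id φ.hom_inv_id, map_pow, h1]
  conv_lhs => rw [triv, smul_comp, sum_comp C]
  conv_rhs => rw [triv]
  congr 1
  exact Finset.sum_congr rfl fun j _ => by rw [comp_ext, h2]

end chow

end Pool.Agent.Y107.SK
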