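import Pool.Agent.Y107.SK.Tw

/-!
# Push-forwards along projections
-/

set_option autoImplicit false
set_option linter.unusedSectionVars false

open CategoryTheory AlgebraicGeometry

universe u v w

namespace Pool.Agent.Y107.SK

open Pool.Agent.H914 Pool.Agent.H914.VarClass Pool.Agent.H914.VarClass.Obj Pool.Agent.W492.BB
  Pool.Agent.W550.Corr Pool.Agent.TH133 Pool.Agent.W484.CH

variable {k : Type u} [Field k] {𝒱 : VarClass k}

section chow

variable {C : TheoryData.{u, v, 0} 𝒱 ℚ} [hC : IsChowProj C] {X Y Z W : 𝒱.Obj}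

include hC

lemma ext_mul_ext (a a' : C.A X) (b b' : C.A Y) :
    C.ext a b * C.ext a' b' = C.ext (a * a') (b * b') := by
  simp only [TheoryData.ext, map_mul]
  generalize C.pull (fst X Y) a = x
  generalize C.pull (fst X Y) a' = x'
  generalize C.pull (snd X Y) b = y
  generalize C.pull (snd X Y) b' = y'
  rw [mul_assoc, ← mul_assoc y x' y', ch_comm C y x', mul_assoc, ← mul_assoc, ← mul_assoc]

lemma push_pull_one (f : X ⟶ Y) (b : C.A Y) : C.push f (C.pull f b) = C.push f 1 * b := by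
  have := C.proj_right f 1 b
  rwa [one_mul] at this

lemma push_snd_ext (a : C.A X) (b : C.A Y) :
    C.push (snd X Y) (C.ext a b) = C.push (snd X Y) (C.pull (fst X Y) a) * b := by
  rw [TheoryData.ext, C.proj_right]

lemma push_fst_ext (a : C.A X) (b : C.A Y) :
    C.push (fst X Y) (C.ext a b) = a * C.push (fst X Y) (C.pull (snd X Y) b) := by
  rw [TheoryData.ext, C.proj_left]

lemma push_snd_pow (P : Pol C) (a : ℕ) (Y : 𝒱.Obj) : ∃ r : ℚ,
    (∀ v : C.A Y, C.push (snd P.X Y) (C.ext (P.h ^ a) v) = r • v) ∧ (a ≠ P.X.dim → r = 0) := by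
  rcases lt_trichotomy a P.X.dim with h | h | h
  · refine ⟨0, fun v => ?_, fun _ => rfl⟩
    have h1 := C.push_mem (snd P.X Y) (C.pull_mem (fst P.X Y) (P.pow_mem a))
    rw [C.gr_neg Y _ (by rw [dim_prod]; push_cast; omega)] at h1
    rw [push_snd_ext, (Submodule.mem_bot _).1 h1, zero_mul, zero_smul]
  · refine ⟨P.D, fun v => ?_, fun h' => absurd h h'⟩
    rw [push_snd_ext, h, (P.degree Y).1, smul_mul_assoc, one_mul]
  · refine ⟨0, fun v => ?_, fun _ => rfl⟩
    have h1 : P.h ^ a = 0 := gr_top' (P.pow_mem a) (by omega)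
    rw [push_snd_ext, h1, map_zero, map_zero, zero_mul, zero_smul]

lemma push_fst_pow (P : Pol C) (a : ℕ) (Y : 𝒱.Obj) : ∃ r : ℚ,
    (∀ v : C.A Y, C.push (fst Y P.X) (C.ext v (P.h ^ a)) = r • v) ∧ (a ≠ P.X.dim → r = 0) := by
  rcases lt_trichotomy a P.X.dim with h | h | h
  · refine ⟨0, fun v => ?_, fun _ => rfl⟩
    have h1 := C.push_mem (fst Y P.X) (C.pull_mem (snd Y P.X) (P.pow_mem a))
    rw [C.gr_neg Y _ (by rw [dim_prod]; push_cast; omega)] at h1
    rw [push_fst_ext, (Submodule.mem_bot _).1 h1, mul_zero, zero_smul]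
  · refine ⟨P.D, fun v => ?_, fun h' => absurd h h'⟩
    rw [push_fst_ext, h, (P.degree Y).2, mul_smul_comm, mul_one]
  · refine ⟨0, fun v => ?_, fun _ => rfl⟩
    have h1 : P.h ^ a = 0 := gr_top' (P.pow_mem a) (by omega)
    rw [push_fst_ext, h1, map_zero, map_zero, mul_zero, zero_smul]

lemma tens_ext_snd {a : ℤ} (u : C.A Z) {v : C.A X} (hv : v ∈ C.gr X a) (ha : a < X.dim) :
    C.comp (tens C (C.ext u v) (dg C Y)) (C.graph (snd X Y)) = 0 := by
  let φ : (Z.prod Y).prod (X.prod Y) ⟶ (Z.prod Y).prod Y := prodMap (𝟙 (Z.prod Y)) (snd X Y)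
  have e1 : prodMap (snd Z Y) (snd X Y) = φ ≫ prodMap (snd Z Y) (𝟙 Y) := by
    apply prod_ext <;> simp [φ, prodMap, comp_lift]
  have e2 : prodMap (fst Z Y) (fst X Y) ≫ fst Z X = φ ≫ fst (Z.prod Y) Y ≫ fst Z Y := by
    simp [φ, prodMap]
  have h0 : C.push φ (C.pull (prodMap (fst Z Y) (fst X Y) ≫ snd Z X) v) = 0 := by
    have h1 := C.push_mem φ (C.pull_mem (prodMap (fst Z Y) (fst X Y) ≫ snd Z X) hv)
    rw [C.gr_neg _ _ (by simp only [dim_prod]; push_cast; omega)] at h1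
    exact (Submodule.mem_bot _).1 h1
  rw [comp_graph]
  change C.push φ _ = 0
  have h2 : tens C (C.ext u v) (dg C Y) = C.pull φ (C.pull (fst (Z.prod Y) Y ≫ fst Z Y) u *
      C.pull (prodMap (snd Z Y) (𝟙 Y)) (dg C Y)) *
        C.pull (prodMap (fst Z Y) (fst X Y) ≫ snd Z X) v := by
    rw [tens, TheoryData.ext, map_mul (C.pull (prodMap (fst Z Y) (fst X Y))), ← C.pull_comp,
      ← C.pull_comp, e1, e2, map_mul (C.pull φ), ← C.pull_comp, ← C.pull_comp, mul_assoc,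
      ch_comm C (C.pull (prodMap (fst Z Y) (fst X Y) ≫ snd Z X) v), ← mul_assoc]
  rw [h2, C.proj_left, h0, mul_zero]

lemma tens_ext_fst {a : ℤ} (u : C.A Z) {v : C.A X} (hv : v ∈ C.gr X a) (ha : a < X.dim) :
    C.comp (tens C (dg C Y) (C.ext u v)) (C.graph (fst Y X)) = 0 := by
  let φ : (Y.prod Z).prod (Y.prod X) ⟶ (Y.prod Z).prod Y := prodMap (𝟙 (Y.prod Z)) (fst Y X)
  have e1 : prodMap (fst Y Z) (fst Y X) = φ ≫ prodMap (fst Y Z) (𝟙 Y) := by
    apply prod_ext <;> simp [φ, prodMap, comp_lift]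
  have e2 : prodMap (snd Y Z) (snd Y X) ≫ fst Z X = φ ≫ fst (Y.prod Z) Y ≫ snd Y Z := by
    simp [φ, prodMap]
  have h0 : C.push φ (C.pull (prodMap (snd Y Z) (snd Y X) ≫ snd Z X) v) = 0 := by
    have h1 := C.push_mem φ (C.pull_mem (prodMap (snd Y Z) (snd Y X) ≫ snd Z X) hv)
    rw [C.gr_neg _ _ (by simp only [dim_prod]; push_cast; omega)] at h1
    exact (Submodule.mem_bot _).1 h1
  rw [comp_graph]
  change C.push φ _ = 0
  have h2 : tens C (dg C Y) (C.ext u v) = C.pull φ (C.pull (prodMap (fst Y Z) (𝟙 Y)) (dg C Y) *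
      C.pull (fst (Y.prod Z) Y ≫ snd Y Z) u) *
        C.pull (prodMap (snd Y Z) (snd Y X) ≫ snd Z X) v := by
    rw [tens, TheoryData.ext, map_mul (C.pull (prodMap (snd Y Z) (snd Y X))), ← C.pull_comp,
      ← C.pull_comp, e1, e2, map_mul (C.pull φ), ← C.pull_comp, ← C.pull_comp, ← mul_assoc]
  rw [h2, C.proj_left, h0, mul_zero]

end chow

end Pool.Agent.Y107.SK
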