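import Pool.Agent.Y107.SK.Push

/-!
# The diagram of Shioda and Katsura: classes from `X₁ × X₂`
-/

set_option autoImplicit false
set_option linter.unusedSectionVars false

open CategoryTheory AlgebraicGeometry

universe u v w

namespace Pool.Agent.Y107.SK

open Pool.Agent.H914 Pool.Agent.H914.VarClass Pool.Agent.H914.VarClass.Obj Pool.Agent.W492.BB
  Pool.Agent.W550.Corr Pool.Agent.TH133 Pool.Agent.W484.CH

variable {k : Type u} [Field k] {𝒱 : VarClass k}

section chow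

variable {C : TheoryData.{u, v, 0} 𝒱 ℚ} [hC : IsChowProj C] {V X₁ X₂ Y₁ Y₂ : Pol C}
  {D : Diagram C V.X X₁.X X₂.X Y₁.X Y₂.X}

include hC

/-- The class `q_* π^* (h₁^a × h₂^b)`. -/
noncomputable def RR (D : Diagram C V.X X₁.X X₂.X Y₁.X Y₂.X) (a b : ℕ) : C.A V.X :=
  C.push D.q (C.pull D.π (C.ext (X₁.h ^ a) (X₂.h ^ b)))

/-- The class `q_* j_* σ^* (h^a × h^b)`. -/
noncomputable def SS (D : Diagram C V.X X₁.X X₂.X Y₁.X Y₂.X) (a b : ℕ) : C.A V.X :=
  C.push D.q (C.push D.j (C.pull D.σ (C.ext (Y₁.h ^ a) (Y₂.h ^ b))))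

/-- The span of the powers of `h` on `V`. -/
noncomputable def TT (P : Pol C) : Submodule ℚ (C.A P.X) :=
  Submodule.span ℚ (Set.range fun j : ℕ => P.h ^ j)

lemma pow_mem_TT (P : Pol C) (j : ℕ) : P.h ^ j ∈ TT P := Submodule.subset_span ⟨j, rfl⟩

lemma push_i₂ (hP : D.IsPolarized) (b : ℕ) : C.push D.i₂ (Y₂.h ^ b) ∈ TT V := by
  have h1 : C.pull D.i₂ V.h = Y₂.h := hP.i₂_h
  have h2 : C.push D.i₂ 1 = V.h ^ (X₁.X.dim + 1) := hP.i₂_one
  rw [← h1, ← map_pow, push_pull_one, h2, ← pow_add]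
  exact pow_mem_TT V _

lemma push_i₁ (hP : D.IsPolarized) (b : ℕ) : C.push D.i₁ (Y₁.h ^ b) ∈ TT V := by
  have h1 : C.pull D.i₁ V.h = Y₁.h := hP.i₁_h
  have h2 : C.push D.i₁ 1 = V.h ^ (X₂.X.dim + 1) := hP.i₁_one
  rw [← h1, ← map_pow, push_pull_one, h2, ← pow_add]
  exact pow_mem_TT V _

lemma act_strict₂ (hB : D.IsBlowUp) (x : C.A (X₁.X.prod Y₂.X)) :
    C.pull D.π (C.push (prodMap (𝟙 X₁.X) D.t) x) = C.push D.j₂ x +
      C.push D.j (C.pull D.σ (C.pull (prodMap D.s (𝟙 Y₂.X)) x)) := by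
  have h := congrArg (fun y => C.act y x) hB.strict₂
  simp only [C.act_add, C.act_comp, C.act_graph, C.act_cograph] at h
  exact h

lemma act_strict₁ (hB : D.IsBlowUp) (x : C.A (Y₁.X.prod X₂.X)) :
    C.pull D.π (C.push (prodMap D.s (𝟙 X₂.X)) x) = C.push D.j₁ x +
      C.push D.j (C.pull D.σ (C.pull (prodMap (𝟙 Y₁.X) D.t) x)) := by
  have h := congrArg (fun y => C.act y x) hB.strict₁
  simp only [C.act_add, C.act_comp, C.act_graph, C.act_cograph] at h
  exact h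

lemma pull_st (hP : D.IsPolarized) (a b : ℕ) :
    C.pull (prodMap D.s D.t) (C.ext (X₁.h ^ a) (X₂.h ^ b)) = C.ext (Y₁.h ^ a) (Y₂.h ^ b) := by
  have h1 : C.pull D.s X₁.h = Y₁.h := hP.s_h
  have h2 : C.pull D.t X₂.h = Y₂.h := hP.t_h
  rw [pull_ext C, map_pow, map_pow, h1, h2]

lemma RR_succ_right (hB : D.IsBlowUp) (hP : D.IsPolarized) (a b : ℕ) :
    RR D a (b + 1) - SS D a b ∈ TT V := by
  have h1 : C.pull D.s X₁.h = Y₁.h := hP.s_h
  have h2 : C.pull D.t X₂.h = Y₂.h := hP.t_h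
  have h3 : C.push D.t 1 = X₂.h := hP.t_one
  have e1 : C.push (prodMap (𝟙 X₁.X) D.t) (C.ext (X₁.h ^ a) (Y₂.h ^ b)) =
      C.ext (X₁.h ^ a) (X₂.h ^ (b + 1)) := by
    rw [push_ext C, C.push_id, ← h2, ← map_pow, push_pull_one, h3, ← pow_succ']
  have e2 : C.pull (prodMap D.s (𝟙 Y₂.X)) (C.ext (X₁.h ^ a) (Y₂.h ^ b)) =
      C.ext (Y₁.h ^ a) (Y₂.h ^ b) := by
    rw [pull_ext C, C.pull_id, map_pow, h1]
  have e3 := act_strict₂ hB (C.ext (X₁.h ^ a) (Y₂.h ^ b))
  rw [e1, e2] at e3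
  obtain ⟨r, hr, -⟩ := push_snd_pow X₁ a Y₂.X
  have e4 : RR D a (b + 1) - SS D a b = r • C.push D.i₂ (Y₂.h ^ b) := by
    unfold RR SS
    rw [e3, map_add, add_sub_cancel_right, ← C.push_comp, hP.j₂_q, C.push_comp, hr, map_smul]
  rw [e4]
  exact Submodule.smul_mem _ _ (push_i₂ hP b)

lemma RR_succ_left (hB : D.IsBlowUp) (hP : D.IsPolarized) (a b : ℕ) :
    RR D (a + 1) b - SS D a b ∈ TT V := by
  have h1 : C.pull D.s X₁.h = Y₁.h := hP.s_h
  have h2 : C.pull D.t X₂.h = Y₂.h := hP.t_h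
  have h3 : C.push D.s 1 = X₁.h := hP.s_one
  have e1 : C.push (prodMap D.s (𝟙 X₂.X)) (C.ext (Y₁.h ^ a) (X₂.h ^ b)) =
      C.ext (X₁.h ^ (a + 1)) (X₂.h ^ b) := by
    rw [push_ext C, C.push_id, ← h1, ← map_pow, push_pull_one, h3, ← pow_succ']
  have e2 : C.pull (prodMap (𝟙 Y₁.X) D.t) (C.ext (Y₁.h ^ a) (X₂.h ^ b)) =
      C.ext (Y₁.h ^ a) (Y₂.h ^ b) := by
    rw [pull_ext C, C.pull_id, map_pow, h2]
  have e3 := act_strict₁ hB (C.ext (Y₁.h ^ a) (X₂.h ^ b))
  rw [e1, e2] at e3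
  obtain ⟨r, hr, -⟩ := push_fst_pow X₂ b Y₁.X
  have e4 : RR D (a + 1) b - SS D a b = r • C.push D.i₁ (Y₁.h ^ a) := by
    unfold RR SS
    rw [e3, map_add, add_sub_cancel_right, ← C.push_comp, hP.j₁_q, C.push_comp, hr, map_smul]
  rw [e4]
  exact Submodule.smul_mem _ _ (push_i₁ hP a)

lemma RR_mem_gr (hB : D.IsBlowUp) (a b : ℕ) : RR D a b ∈ C.gr V.X ((a + b : ℕ) : ℤ) := by
  have h1 := C.push_mem D.q (C.pull_mem D.π (ext_mem' (C := C) (X₁.pow_mem a) (X₂.pow_mem b)))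
  have h2 := hB.dim_W
  have h3 := hB.dim_V
  rwa [show (a : ℤ) + b + 1 * ((V.X.dim : ℤ) - D.W.dim) = ((a + b : ℕ) : ℤ) by
    rw [h2, h3]; push_cast; ring] at h1

lemma SS_mem (hB : D.IsBlowUp) (hP : D.IsPolarized) (a b : ℕ) : SS D a b ∈ TT V := by
  have h0 : C.pull D.q V.h = C.pull D.π (C.ext X₁.h 1) + C.pull D.π (C.ext 1 X₂.h) -
    C.push D.j 1 := hP.q_h
  have h1 : V.h * RR D a b = RR D (a + 1) b + RR D a (b + 1) - SS D a b := by
    have e1 : C.push D.j 1 * C.pull D.π (C.ext (X₁.h ^ a) (X₂.h ^ b)) =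
        C.push D.j (C.pull D.σ (C.ext (Y₁.h ^ a) (Y₂.h ^ b))) := by
      rw [← push_pull_one, ← C.pull_comp, hB.j_π, C.pull_comp, pull_st hP]
    have e2 : C.pull D.π (C.ext X₁.h 1) * C.pull D.π (C.ext (X₁.h ^ a) (X₂.h ^ b)) =
        C.pull D.π (C.ext (X₁.h ^ (a + 1)) (X₂.h ^ b)) := by
      rw [← map_mul, ext_mul_ext, one_mul, ← pow_succ']
    have e3 : C.pull D.π (C.ext 1 X₂.h) * C.pull D.π (C.ext (X₁.h ^ a) (X₂.h ^ b)) =
        C.pull D.π (C.ext (X₁.h ^ a) (X₂.h ^ (b + 1))) := by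
      rw [← map_mul, ext_mul_ext, one_mul, ← pow_succ']
    unfold RR SS
    rw [← C.proj_left, h0, sub_mul, add_mul, e1, e2, e3, map_sub, map_add]
  have h2 : V.h * RR D a b ∈ TT V := by
    obtain ⟨r, hr⟩ := hP.mul_h (a + b) _ (RR_mem_gr hB a b)
    rw [hr]
    exact Submodule.smul_mem _ _ (pow_mem_TT V _)
  have h3 := RR_succ_left hB hP a b
  have h4 := RR_succ_right hB hP a b
  have h5 : SS D a b = V.h * RR D a b - (RR D (a + 1) b - SS D a b) -
      (RR D a (b + 1) - SS D a b) := by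
    rw [h1]
    abel
  rw [h5]
  exact Submodule.sub_mem _ (Submodule.sub_mem _ h2 h3) h4

/-- The push-forwards of the products of powers of the hyperplane classes. -/
lemma RR_mem (hB : D.IsBlowUp) (hP : D.IsPolarized) (a b : ℕ) : RR D a b ∈ TT V := by
  rcases Nat.eq_zero_or_pos b with hb | hb
  · rcases Nat.eq_zero_or_pos a with ha | ha
    · subst ha hb
      obtain ⟨d, -, hd⟩ := hP.q_one
      have h1 : C.ext (X₁.h ^ 0) (X₂.h ^ 0) = 1 := by
        rw [pow_zero, pow_zero, TheoryData.ext, map_one, map_one, one_mul]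
      have hd' : C.push D.q 1 = d • (1 : C.A V.X) := hd
      unfold RR
      rw [h1, map_one, hd', ← pow_zero V.h]
      exact Submodule.smul_mem _ _ (pow_mem_TT V 0)
    · obtain ⟨a, rfl⟩ := Nat.exists_eq_succ_of_ne_zero ha.ne'
      have h := Submodule.add_mem _ (RR_succ_left hB hP a b) (SS_mem hB hP a b)
      rwa [sub_add_cancel] at h
  · obtain ⟨b, rfl⟩ := Nat.exists_eq_succ_of_ne_zero hb.ne'
    have h := Submodule.add_mem _ (RR_succ_right hB hP a b) (SS_mem hB hP a b)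
    rwa [sub_add_cancel] at h

lemma act_prim_RR (hB : D.IsBlowUp) (hP : D.IsPolarized) (a b : ℕ) :
    C.act (prim V) (RR D a b) = 0 := act_prim_span V (RR_mem hB hP a b)

/-- The correspondence `q_* π^*`. -/
noncomputable def aa (D : Diagram C V.X X₁.X X₂.X Y₁.X Y₂.X) : C.A ((X₁.X.prod X₂.X).prod V.X) :=
  C.comp (C.cograph D.π) (C.graph D.q)

lemma aa_inv (hE : D.IsEquivariant) (g : D.G) :
    C.comp (tens C (C.graph (D.γ₁ g).hom) (C.graph (D.γ₂ g).hom)) (aa D) = aa D := by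
  let Φ : X₁.X.prod X₂.X ≅ X₁.X.prod X₂.X :=
    { hom := prodMap (D.γ₁ g).hom (D.γ₂ g).hom
      inv := prodMap (D.γ₁ g).inv (D.γ₂ g).inv
      hom_inv_id := by
        rw [prodMap_comp, Iso.hom_inv_id, Iso.hom_inv_id]
        apply prod_ext <;> simp
      inv_hom_id := by
        rw [prodMap_comp, Iso.inv_hom_id, Iso.inv_hom_id]
        apply prod_ext <;> simp }
  have h1 : D.π ≫ Φ.inv = (D.γ g).inv ≫ D.π := by
    rw [Iso.comp_inv_eq, Category.assoc, Iso.eq_inv_comp]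
    exact hE.γ_π g
  have h2 : C.graph (prodMap (D.γ₁ g).hom (D.γ₂ g).hom) = C.cograph Φ.inv := graph_iso Φ
  rw [tens_graph, h2, aa, ← comp_assoc C, cograph_cograph, h1, ← cograph_cograph, ← graph_iso,
    comp_assoc C, graph_graph, hE.γ_q g]

lemma triv_triv_aa (hB : D.IsBlowUp) (hP : D.IsPolarized) :
    C.comp (tens C (triv X₁) (triv X₂)) (C.comp (aa D) (prim V)) = 0 := by
  have h1 : ∀ i j : ℕ, C.comp (tens C (C.ext (X₁.h ^ i) (X₁.h ^ (X₁.X.dim - i)))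
      (C.ext (X₂.h ^ j) (X₂.h ^ (X₂.X.dim - j)))) (C.comp (aa D) (prim V)) = 0 := by
    intro i j
    rw [tens_ext, comp_ext, C.act_comp]
    have h2 : C.act (aa D) (C.ext (X₁.h ^ (X₁.X.dim - i)) (X₂.h ^ (X₂.X.dim - j))) =
        RR D (X₁.X.dim - i) (X₂.X.dim - j) := by
      rw [aa, C.act_comp, C.act_graph, C.act_cograph]
      rfl
    rw [h2, act_prim_RR hB hP, C.ext_zero_right]
  rw [triv, triv, tens_smul_left, tens_smul_right, smul_comp, smul_comp, tens_sum_left,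
    sum_comp C]
  rw [Finset.sum_eq_zero fun i _ => ?_, smul_zero, smul_zero]
  rw [tens_sum_right, sum_comp C]
  exact Finset.sum_eq_zero fun j _ => h1 i j

lemma triv_dg_aa (hB : D.IsBlowUp) (hP : D.IsPolarized) (hE : D.IsEquivariant) :
    C.comp (tens C (triv X₁) (dg C X₂.X)) (C.comp (aa D) (prim V)) = 0 := by
  have h1 : ∀ g, C.comp (tens C (triv X₁) (dg C X₂.X)) (aa D) =
      C.comp (tens C (triv X₁) (C.graph (D.γ₂ g).hom)) (aa D) := by
    intro g
    conv_lhs => rw [← aa_inv hE g]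
    rw [← comp_assoc C, tens_comp4, triv_graph X₁ _ (hE.γ₁_h g), dg_comp C]
  have h2 : (Fintype.card D.G : ℚ) • C.comp (tens C (triv X₁) (dg C X₂.X)) (aa D) =
      (Fintype.card D.G : ℚ) • C.comp (tens C (triv X₁) (triv X₂)) (aa D) := by
    rw [← smul_comp, ← smul_comp, ← tens_smul_right _ _ (triv X₂), ← hE.avg₂, tens_sum_right,
      sum_comp C, smul_comp, Nat.cast_smul_eq_nsmul, ← Finset.card_univ, ← Finset.sum_const]
    exact Finset.sum_congr rfl fun g _ => h1 g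
  have hcard : (Fintype.card D.G : ℚ) ≠ 0 := by
    haveI := hE.nonempty
    exact_mod_cast Fintype.card_ne_zero
  have h3 := smul_right_injective _ hcard h2
  rw [← comp_assoc C, h3, comp_assoc C, triv_triv_aa hB hP]

lemma dg_triv_aa (hB : D.IsBlowUp) (hP : D.IsPolarized) (hE : D.IsEquivariant) :
    C.comp (tens C (dg C X₁.X) (triv X₂)) (C.comp (aa D) (prim V)) = 0 := by
  have h1 : ∀ g, C.comp (tens C (dg C X₁.X) (triv X₂)) (aa D) =
      C.comp (tens C (C.graph (D.γ₁ g).hom) (triv X₂)) (aa D) := by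
    intro g
    conv_lhs => rw [← aa_inv hE g]
    rw [← comp_assoc C, tens_comp4, triv_graph X₂ _ (hE.γ₂_h g), dg_comp C]
  have h2 : (Fintype.card D.G : ℚ) • C.comp (tens C (dg C X₁.X) (triv X₂)) (aa D) =
      (Fintype.card D.G : ℚ) • C.comp (tens C (triv X₁) (triv X₂)) (aa D) := by
    rw [← smul_comp, ← smul_comp, ← tens_smul_left _ (triv X₁), ← hE.avg₁, tens_sum_left,
      sum_comp C, smul_comp, Nat.cast_smul_eq_nsmul, ← Finset.card_univ, ← Finset.sum_const]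
    exact Finset.sum_congr rfl fun g _ => h1 g
  have hcard : (Fintype.card D.G : ℚ) ≠ 0 := by
    haveI := hE.nonempty
    exact_mod_cast Fintype.card_ne_zero
  have h3 := smul_right_injective _ hcard h2
  rw [← comp_assoc C, h3, comp_assoc C, triv_triv_aa hB hP]

omit hC in
/-- A correspondence killed by the trivial parts factors through the primitive parts. -/
lemma eq_prim_comp [IsChowProj C] {P Q : Pol C} {Z : 𝒱.Obj} {A : C.A ((P.X.prod Q.X).prod Z)}
    (h1 : C.comp (tens C (triv P) (dg C Q.X)) A = 0)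
    (h2 : C.comp (tens C (dg C P.X) (triv Q)) A = 0) :
    A = C.comp (tens C (prim P) (prim Q)) A := by
  have h3 : A = C.comp (tens C (dg C P.X) (dg C Q.X)) A := by
    rw [tens_dg C, dg_comp C]
  have h4 : tens C (dg C P.X) (dg C Q.X) = tens C (prim P) (prim Q) +
      tens C (prim P) (triv Q) + tens C (triv P) (dg C Q.X) := by
    rw [← tens_add_right, ← dg_eq Q, ← tens_add_left, ← dg_eq P]
  have h5 : tens C (prim P) (triv Q) = C.comp (tens C (prim P) (dg C Q.X))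
      (tens C (dg C P.X) (triv Q)) := by
    rw [tens_comp4, comp_dg C, dg_comp C]
  have h6 : C.comp (tens C (prim P) (triv Q)) A = 0 := by
    rw [h5, comp_assoc C, h2, comp_zero C]
  conv_lhs => rw [h3, h4, add_comp C, add_comp C, h1, h6, add_zero, add_zero]

end chow

end Pool.Agent.Y107.SK
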