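import Pool.Agent.Y107.SK.StepA

/-!
# The diagram of Shioda and Katsura: the exceptional divisor, and the coniveau of `V`
-/

set_option autoImplicit false
set_option linter.unusedSectionVars false

open CategoryTheory AlgebraicGeometry

universe u v w

namespace Pool.Agent.Y107.SK

open Pool.Agent.H914 Pool.Agent.H914.VarClass Pool.Agent.H914.VarClass.Obj Pool.Agent.W492.BB
  Pool.Agent.W550.Corr Pool.Agent.TH133 Pool.Agent.W484.CH

variable {k : Type u} [Field k] {𝒱 : VarClass k}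

section chow

variable {C : TheoryData.{u, v, 0} 𝒱 ℚ} [hC : IsChowProj C] {V X₁ X₂ Y₁ Y₂ : Pol C}
  {D : Diagram C V.X X₁.X X₂.X Y₁.X Y₂.X}

include hC

/-- The correspondence `j_* σ^*`. -/
noncomputable def kk (D : Diagram C V.X X₁.X X₂.X Y₁.X Y₂.X) : C.A ((Y₁.X.prod Y₂.X).prod D.W) :=
  C.comp (C.cograph D.σ) (C.graph D.j)

/-- The correspondence `q_* j_* σ^*`. -/
noncomputable def bb (D : Diagram C V.X X₁.X X₂.X Y₁.X Y₂.X) : C.A ((Y₁.X.prod Y₂.X).prod V.X) :=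
  C.comp (kk D) (C.graph D.q)

lemma cograph_id' (X : 𝒱.Obj) : C.cograph (𝟙 X) = dg C X := rfl

lemma cograph_s_bb (hB : D.IsBlowUp) (hP : D.IsPolarized) :
    C.comp (C.cograph (prodMap D.s (𝟙 Y₂.X))) (bb D) =
      C.comp (C.graph (prodMap (𝟙 X₁.X) D.t)) (aa D) -
        C.comp (C.graph (snd X₁.X Y₂.X)) (C.graph D.i₂) := by
  have h1 : C.comp (C.cograph (prodMap D.s (𝟙 Y₂.X))) (kk D) =
      C.comp (C.graph (prodMap (𝟙 X₁.X) D.t)) (C.cograph D.π) - C.graph D.j₂ := by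
    rw [hB.strict₂, add_sub_cancel_left]
    rfl
  rw [bb, ← comp_assoc C, h1, sub_comp C, comp_assoc C, graph_graph, hP.j₂_q, graph_graph]
  rfl

lemma cograph_t_bb (hB : D.IsBlowUp) (hP : D.IsPolarized) :
    C.comp (C.cograph (prodMap (𝟙 Y₁.X) D.t)) (bb D) =
      C.comp (C.graph (prodMap D.s (𝟙 X₂.X))) (aa D) -
        C.comp (C.graph (fst Y₁.X X₂.X)) (C.graph D.i₁) := by
  have h1 : C.comp (C.cograph (prodMap (𝟙 Y₁.X) D.t)) (kk D) =
      C.comp (C.graph (prodMap D.s (𝟙 X₂.X))) (C.cograph D.π) - C.graph D.j₁ := by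
    rw [hB.strict₁, add_sub_cancel_left]
    rfl
  rw [bb, ← comp_assoc C, h1, sub_comp C, comp_assoc C, graph_graph, hP.j₁_q, graph_graph]
  rfl

lemma ext_dg_bb (hB : D.IsBlowUp) (hP : D.IsPolarized) (hE : D.IsEquivariant) (u : C.A Y₁.X)
    {m : ℕ} (hm : m < X₁.X.dim) :
    C.comp (tens C (C.ext u (Y₁.h ^ m)) (dg C Y₂.X)) (C.comp (bb D) (prim V)) = 0 := by
  have hs : C.pull D.s X₁.h = Y₁.h := hP.s_h
  have h1 : tens C (C.ext u (Y₁.h ^ m)) (dg C Y₂.X) =
      C.comp (tens C (C.ext u (X₁.h ^ m)) (dg C Y₂.X)) (C.cograph (prodMap D.s (𝟙 Y₂.X))) := by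
    rw [← tens_cograph, tens_comp4, cograph_id', comp_dg C, comp_ext, C.act_cograph, map_pow, hs]
  have h2 : C.comp (tens C (C.ext u (X₁.h ^ m)) (dg C Y₂.X))
      (C.comp (C.graph (prodMap (𝟙 X₁.X) D.t)) (C.comp (aa D) (prim V))) = 0 := by
    have h3 : C.comp (tens C (C.ext u (X₁.h ^ m)) (dg C Y₂.X))
        (C.graph (prodMap (𝟙 X₁.X) D.t)) =
        C.comp (tens C (C.ext u (X₁.h ^ m)) (C.graph D.t)) (tens C (triv X₁) (dg C X₂.X)) := by
      rw [← tens_graph, tens_comp4, tens_comp4, dg_comp C, comp_dg C, ext_pow_triv X₁]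
      congr 1
      exact comp_dg C _
    rw [← comp_assoc C, h3, comp_assoc C, triv_dg_aa hB hP hE, comp_zero C]
  have h4 := tens_ext_snd (Y := Y₂.X) u (X₁.pow_mem m) (by exact_mod_cast hm)
  rw [h1, comp_assoc C, ← comp_assoc C _ (bb D), cograph_s_bb hB hP, sub_comp C, comp_sub C,
    comp_assoc C (C.graph (prodMap (𝟙 X₁.X) D.t)), h2, zero_sub, comp_assoc C, ← comp_assoc C _ _
    (C.comp (C.graph D.i₂) (prim V)), h4, zero_comp C, neg_zero]

lemma dg_ext_bb (hB : D.IsBlowUp) (hP : D.IsPolarized) (hE : D.IsEquivariant) (u : C.A Y₂.X)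
    {m : ℕ} (hm : m < X₂.X.dim) :
    C.comp (tens C (dg C Y₁.X) (C.ext u (Y₂.h ^ m))) (C.comp (bb D) (prim V)) = 0 := by
  have ht : C.pull D.t X₂.h = Y₂.h := hP.t_h
  have h1 : tens C (dg C Y₁.X) (C.ext u (Y₂.h ^ m)) =
      C.comp (tens C (dg C Y₁.X) (C.ext u (X₂.h ^ m))) (C.cograph (prodMap (𝟙 Y₁.X) D.t)) := by
    rw [← tens_cograph, tens_comp4, cograph_id', comp_dg C, comp_ext, C.act_cograph, map_pow, ht]
  have h2 : C.comp (tens C (dg C Y₁.X) (C.ext u (X₂.h ^ m)))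
      (C.comp (C.graph (prodMap D.s (𝟙 X₂.X))) (C.comp (aa D) (prim V))) = 0 := by
    have h3 : C.comp (tens C (dg C Y₁.X) (C.ext u (X₂.h ^ m)))
        (C.graph (prodMap D.s (𝟙 X₂.X))) =
        C.comp (tens C (C.graph D.s) (C.ext u (X₂.h ^ m))) (tens C (dg C X₁.X) (triv X₂)) := by
      rw [← tens_graph, tens_comp4, tens_comp4, dg_comp C, comp_dg C, ext_pow_triv X₂]
      congr 1
      exact comp_dg C _
    rw [← comp_assoc C, h3, comp_assoc C, dg_triv_aa hB hP hE, comp_zero C]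
  have h4 := tens_ext_fst (Y := Y₁.X) u (X₂.pow_mem m) (by exact_mod_cast hm)
  rw [h1, comp_assoc C, ← comp_assoc C _ (bb D), cograph_t_bb hB hP, sub_comp C, comp_sub C,
    comp_assoc C (C.graph (prodMap D.s (𝟙 X₂.X))), h2, zero_sub, comp_assoc C, ← comp_assoc C _ _
    (C.comp (C.graph D.i₁) (prim V)), h4, zero_comp C, neg_zero]

lemma triv_dg_bb (hB : D.IsBlowUp) (hP : D.IsPolarized) (hE : D.IsEquivariant) :
    C.comp (tens C (triv Y₁) (dg C Y₂.X)) (C.comp (bb D) (prim V)) = 0 := by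
  have h := hB.dim_X₁
  rw [triv, tens_smul_left, smul_comp, tens_sum_left, sum_comp C]
  rw [Finset.sum_eq_zero fun i _ => ext_dg_bb hB hP hE _ (by omega), smul_zero]

lemma dg_triv_bb (hB : D.IsBlowUp) (hP : D.IsPolarized) (hE : D.IsEquivariant) :
    C.comp (tens C (dg C Y₁.X) (triv Y₂)) (C.comp (bb D) (prim V)) = 0 := by
  have h := hB.dim_X₂
  rw [triv, tens_smul_right, smul_comp, tens_sum_right, sum_comp C]
  rw [Finset.sum_eq_zero fun i _ => dg_ext_bb hB hP hE _ (by omega), smul_zero]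

/-- The coniveau of `V`. -/
theorem coniveau_step (h : ShiodaKatsura V X₁ X₂ Y₁ Y₂) {a₁ a₂ b₁ b₂ c : ℕ}
    (hX₁ : HasConiveau X₁ a₁) (hX₂ : HasConiveau X₂ a₂) (hY₁ : HasConiveau Y₁ b₁)
    (hY₂ : HasConiveau Y₂ b₂) (h1 : c ≤ a₁ + a₂) (h2 : c ≤ b₁ + b₂ + 1) : HasConiveau V c := by
  obtain ⟨D, hB, hP, hE⟩ := h
  have dW := hB.dim_W
  have dE := hB.dim_E
  have dV := hB.dim_V
  have dX₁ := hB.dim_X₁
  have dX₂ := hB.dim_X₂
  have pX : ((X₁.X.prod X₂.X).dim : ℤ) = X₁.X.dim + X₂.X.dim := by rw [dim_prod]; push_cast; ring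
  have pY : ((Y₁.X.prod Y₂.X).dim : ℤ) = Y₁.X.dim + Y₂.X.dim := by rw [dim_prod]; push_cast; ring
  let A := C.comp (aa D) (prim V)
  let B := C.comp (bb D) (prim V)
  let A' := C.comp (prim V) (C.comp (C.cograph D.q) (C.graph D.π))
  let B' := C.comp (prim V) (C.comp (C.cograph D.q) (C.comp (C.cograph D.j) (C.graph D.σ)))
  -- degrees
  have gA : A ∈ C.gr _ ((V.X.dim : ℤ) - (0 : ℕ)) := by
    have h3 := comp_memZ (cograph_mem (C := C) D.π) (graph_mem' (C := C) D.q)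
      (c := (V.X.dim : ℤ)) (by rw [pX]; omega)
    exact comp_memZ h3 (prim_mem V) (by push_cast; ring)
  have gB : B ∈ C.gr _ ((V.X.dim : ℤ) - (1 : ℕ)) := by
    have h3 := comp_memZ (cograph_mem (C := C) D.σ) (graph_mem' (C := C) D.j)
      (c := (V.X.dim : ℤ) - 1) (by rw [pY]; omega)
    have h4 := comp_memZ h3 (graph_mem' (C := C) D.q) (c := (V.X.dim : ℤ) - 1) (by omega)
    exact comp_memZ h4 (prim_mem V) (by push_cast; ring)
  have gA' : A' ∈ C.gr _ (((X₁.X.prod X₂.X).dim : ℤ) + (0 : ℕ)) := by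
    have h3 := comp_memZ (cograph_mem (C := C) D.q) (graph_mem' (C := C) D.π)
      (c := ((X₁.X.prod X₂.X).dim : ℤ)) (by rw [pX]; omega)
    exact comp_memZ (prim_mem V) h3 (by push_cast; ring)
  have gB' : B' ∈ C.gr _ (((Y₁.X.prod Y₂.X).dim : ℤ) + (1 : ℕ)) := by
    have h3 := comp_memZ (cograph_mem (C := C) D.j) (graph_mem' (C := C) D.σ)
      (c := ((Y₁.X.prod Y₂.X).dim : ℤ) + 1) (by rw [pY]; omega)
    have h4 := comp_memZ (cograph_mem (C := C) D.q) h3
      (c := ((Y₁.X.prod Y₂.X).dim : ℤ) + 1) (by omega)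
    exact comp_memZ (prim_mem V) h4 (by push_cast; ring)
  -- the two parts
  have eA : A = C.comp (tens C (prim X₁) (prim X₂)) A :=
    eq_prim_comp (triv_dg_aa hB hP hE) (dg_triv_aa hB hP hE)
  have eB : B = C.comp (tens C (prim Y₁) (prim Y₂)) B :=
    eq_prim_comp (triv_dg_bb hB hP hE) (dg_triv_bb hB hP hE)
  obtain ⟨d, hd, hqd⟩ := hP.q_one
  have h3 : d • prim V = C.comp A' A - C.comp B' B := by
    have h4 : C.comp (C.cograph D.q) (C.graph D.q) = d • dg C V.X := cograph_push_one D.q d hqd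
    have h5 : C.comp (prim V) (C.comp (C.comp (C.cograph D.q) (C.graph D.q)) (prim V)) =
        d • prim V := by
      rw [h4, smul_comp, comp_smul, dg_comp C, prim_prim]
    have h6 : C.comp (C.cograph D.q) (C.graph D.q) =
        C.comp (C.cograph D.q) (C.comp (dg C D.W) (C.graph D.q)) := by rw [dg_comp C]
    rw [← h5, h6, hB.diag, sub_comp C, comp_sub C, sub_comp C, comp_sub C]
    simp only [A', A, B', B, aa, bb, kk, comp_assoc C]
  have h4 : C.comp A' A ∈ twisted C c V.X V.X := by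
    rw [eA]
    exact twisted_mono (by omega) (twisted_comp 0 gA' gA (twisted_tens hX₁ hX₂))
  have h5 : C.comp B' B ∈ twisted C c V.X V.X := by
    rw [eB]
    exact twisted_mono (by omega) (twisted_comp 1 gB' gB (twisted_tens hY₁ hY₂))
  have h6 : d • prim V ∈ twisted C c V.X V.X := by
    rw [h3]
    exact Submodule.sub_mem _ h4 h5
  have h7 := Submodule.smul_mem _ d⁻¹ h6
  rw [smul_smul, inv_mul_cancel₀ hd, one_smul] at h7
  exact h7

end chow

end Pool.Agent.Y107.SK
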