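import Pool.Agent.Y107.SK.Prim

/-!
# Twisted correspondences
-/

set_option autoImplicit false
set_option linter.unusedSectionVars false

open CategoryTheory AlgebraicGeometry

universe u v w

namespace Pool.Agent.Y107.SK

open Pool.Agent.H914 Pool.Agent.H914.VarClass Pool.Agent.H914.VarClass.Obj Pool.Agent.W492.BB
  Pool.Agent.W550.Corr Pool.Agent.TH133 Pool.Agent.W484.CH

variable {k : Type u} [Field k] {𝒱 : VarClass k}

section chow

variable {C : TheoryData.{u, v, 0} 𝒱 ℚ} [hC : IsChowProj C] {X Y Z W X' Y' Z' W' : 𝒱.Obj}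

include hC

lemma comp_memZ {a b c : ℤ} {Γ : C.A (X.prod Y)} {Δ : C.A (Y.prod Z)}
    (hΓ : Γ ∈ C.gr (X.prod Y) a) (hΔ : Δ ∈ C.gr (Y.prod Z) b) (hc : c = a + b - Y.dim) :
    C.comp Γ Δ ∈ C.gr (X.prod Z) c := by
  have h1 : Γ ∈ C.gr (X.prod Y) (X.dim + (a - X.dim)) := by
    rwa [add_sub_cancel]
  have h2 : Δ ∈ C.gr (Y.prod Z) (Y.dim + (b - Y.dim)) := by
    rwa [add_sub_cancel]
  have h3 := comp_mem C h1 h2
  rwa [show (X.dim : ℤ) + (a - X.dim + (b - Y.dim)) = c by rw [hc]; ring] at h3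

lemma twisted_mono {c c' : ℕ} (h : c ≤ c') : twisted C c' X Y ≤ twisted C c X Y := by
  refine Submodule.span_mono ?_
  rintro Γ ⟨Z, m, α, β, hm, hα, hβ, rfl⟩
  exact ⟨Z, m, α, β, h.trans hm, hα, hβ, rfl⟩

/-- Compositions with correspondences of opposite degrees. -/
lemma twisted_comp {c : ℕ} (a : ℕ) {Γ : C.A (X'.prod X)} {Δ : C.A (Y.prod Y')}
    (hΓ : Γ ∈ C.gr (X'.prod X) ((X.dim : ℤ) + a)) (hΔ : Δ ∈ C.gr (Y.prod Y') ((Y'.dim : ℤ) - a))
    {t : C.A (X.prod Y)} (ht : t ∈ twisted C c X Y) :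
    C.comp Γ (C.comp t Δ) ∈ twisted C (c + a) X' Y' := by
  unfold twisted at ht
  induction ht using Submodule.span_induction with
  | zero =>
    rw [zero_comp C, comp_zero C]
    exact Submodule.zero_mem _
  | add x y _ _ hx hy =>
    rw [add_comp C, comp_add C]
    exact Submodule.add_mem _ hx hy
  | smul r x _ hx =>
    rw [smul_comp, comp_smul]
    exact Submodule.smul_mem _ _ hx
  | mem x hx =>
    obtain ⟨Z, m, α, β, hm, hα, hβ, rfl⟩ := hx
    refine Submodule.subset_span ⟨Z, m + a, C.comp Γ α, C.comp β Δ, by omega, ?_, ?_, ?_⟩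
    · exact comp_memZ hΓ hα (by push_cast; ring)
    · exact comp_memZ hβ hΔ (by push_cast; ring)
    · rw [comp_assoc C α β Δ, ← comp_assoc C Γ α]

lemma tens_add_left (Γ Γ' : C.A (X.prod Y)) (Δ : C.A (Z.prod W)) :
    tens C (Γ + Γ') Δ = tens C Γ Δ + tens C Γ' Δ := by
  have := LinearMap.map_add₂ (tensL (C := C) (X := X) (Y := Y) (Z := Z) (W := W)) Γ Γ' Δ
  exact this

lemma tens_sub_left (Γ Γ' : C.A (X.prod Y)) (Δ : C.A (Z.prod W)) :
    tens C (Γ - Γ') Δ = tens C Γ Δ - tens C Γ' Δ := by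
  have := LinearMap.map_sub₂ (tensL (C := C) (X := X) (Y := Y) (Z := Z) (W := W)) Γ Γ' Δ
  exact this

lemma tens_smul_left (r : ℚ) (Γ : C.A (X.prod Y)) (Δ : C.A (Z.prod W)) :
    tens C (r • Γ) Δ = r • tens C Γ Δ := by
  have := LinearMap.map_smul₂ (tensL (C := C) (X := X) (Y := Y) (Z := Z) (W := W)) r Γ Δ
  exact this

lemma tens_add_right (Γ : C.A (X.prod Y)) (Δ Δ' : C.A (Z.prod W)) :
    tens C Γ (Δ + Δ') = tens C Γ Δ + tens C Γ Δ' := map_add (tensL (C := C) Γ) Δ Δ'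

lemma tens_sub_right (Γ : C.A (X.prod Y)) (Δ Δ' : C.A (Z.prod W)) :
    tens C Γ (Δ - Δ') = tens C Γ Δ - tens C Γ Δ' := map_sub (tensL (C := C) Γ) Δ Δ'

lemma tens_smul_right (r : ℚ) (Γ : C.A (X.prod Y)) (Δ : C.A (Z.prod W)) :
    tens C Γ (r • Δ) = r • tens C Γ Δ := map_smul (tensL (C := C) Γ) r Δ

lemma tens_sum_left {ι : Type*} (s : Finset ι) (f : ι → C.A (X.prod Y)) (Δ : C.A (Z.prod W)) :
    tens C (∑ i ∈ s, f i) Δ = ∑ i ∈ s, tens C (f i) Δ := by
  have := map_sum ((tensL (C := C) (X := X) (Y := Y) (Z := Z) (W := W)).flip Δ) f s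
  exact this

lemma tens_sum_right {ι : Type*} (s : Finset ι) (Γ : C.A (X.prod Y)) (f : ι → C.A (Z.prod W)) :
    tens C Γ (∑ i ∈ s, f i) = ∑ i ∈ s, tens C Γ (f i) :=
  map_sum (tensL (C := C) Γ) f s

/-- External products of twisted correspondences. -/
lemma twisted_tens {c c' : ℕ} {t : C.A (X.prod Y)} (ht : t ∈ twisted C c X Y)
    {t' : C.A (X'.prod Y')} (ht' : t' ∈ twisted C c' X' Y') :
    tens C t t' ∈ twisted C (c + c') (X.prod X') (Y.prod Y') := by
  unfold twisted at ht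
  induction ht using Submodule.span_induction with
  | zero =>
    rw [tens_zero_left]
    exact Submodule.zero_mem _
  | add x y _ _ hx hy =>
    rw [tens_add_left]
    exact Submodule.add_mem _ hx hy
  | smul r x _ hx =>
    rw [tens_smul_left]
    exact Submodule.smul_mem _ _ hx
  | mem x hx =>
    obtain ⟨Z, m, α, β, hm, hα, hβ, rfl⟩ := hx
    unfold twisted at ht'
    induction ht' using Submodule.span_induction with
    | zero =>
      rw [tens_zero_right]
      exact Submodule.zero_mem _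
    | add x y _ _ hx hy =>
      rw [tens_add_right]
      exact Submodule.add_mem _ hx hy
    | smul r x _ hx =>
      rw [tens_smul_right]
      exact Submodule.smul_mem _ _ hx
    | mem x hx =>
      obtain ⟨Z', m', α', β', hm', hα', hβ', rfl⟩ := hx
      refine Submodule.subset_span ⟨Z.prod Z', m + m', tens C α α', tens C β β', by omega,
        ?_, ?_, (tens_comp4 _ _ _ _).symm⟩
      · have := tens_mem C hα hα'
        rwa [show (Z.dim : ℤ) + m + (Z'.dim + m') = ((Z.prod Z').dim : ℤ) + ((m + m' : ℕ) : ℤ) by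
          rw [dim_prod]; push_cast; ring] at this
      · have := tens_mem C hβ hβ'
        rwa [show (Y.dim : ℤ) - m + (Y'.dim - m') = ((Y.prod Y').dim : ℤ) - ((m + m' : ℕ) : ℤ) by
          rw [dim_prod]; push_cast; ring] at this

end chow

end Pool.Agent.Y107.SK
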